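import Pool.Agent.W353.AB.Govern
import Pool.Agent.W353.AB.Hi
import Pool.Agent.W385.TT.Stab

/-!
# Non-vanishing at the edge for products of twists of curves over all number fields

`K` is a number field (the problem is the case `K = ℚ`; a smooth projective variety over a number
field `F` is a smooth projective variety over `ℚ`, with the same `L`-functions), `C₁, …, C_r` are
hyperelliptic curves `y² = f_j(x)` over `K` with `f_j` of odd degree `2 g_j + 1 ≥ 3` (all elliptic
curves are of this kind).  For a number field `F ⊇ K` and `d = (d₁, …, d_r)`, `d_j ∈ F^*`, the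
variety `X_d = ∏ C_{j, d_j}` over `F` is the product of the quadratic twists `d_j y² = f_j(x)`.  The
theorem is about the zeros at `s₀ = i/2 + 1` of the `L`-functions of all `Hⁱ(X_d)`, for all `F` and
`d` together.
-/

set_option autoImplicit false

namespace Pool.Agent.Results.MP_2b9663_nt.AllNumberFields

open NumberField IsDedekindDomain Filter Topology Polynomial
open scoped TensorProduct

/-- Number of affine points of `d y² = f(x)` with coordinates in the extension of degree `m` of the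
finite field `k`, that is, the field of the elements of the algebraic closure of `k` that are fixed
by the `m`-th power of the Frobenius of `k`. -/
noncomputable def affineCount (k : Type) [Field k] (f : k[X]) (d : k) (m : ℕ) : ℕ :=
  Nat.card {P : AlgebraicClosure k × AlgebraicClosure k //
    P.1 ^ (Nat.card k ^ m) = P.1 ∧ P.2 ^ (Nat.card k ^ m) = P.2 ∧
    algebraMap k (AlgebraicClosure k) d * P.2 ^ 2 = aeval P.1 f}

/-- Trace of the `m`-th power of the Frobenius at `v` on `H¹` of the smooth projective curve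
`d y² = f(x)`, `deg f` odd: it is `q^m + 1` minus the number of points over the field with `q^m`
elements, and there is one point at infinity. -/
noncomputable def traceH1 {F : Type} [Field F] [NumberField F] (v : HeightOneSpectrum (𝓞 F))
    (f : (𝓞 F)[X]) (d : 𝓞 F) (m : ℕ) : ℤ :=
  haveI : v.asIdeal.IsMaximal := v.isMaximal
  letI : Field (𝓞 F ⧸ v.asIdeal) := Ideal.Quotient.field v.asIdeal
  (Ideal.absNorm v.asIdeal : ℤ) ^ m + 1 -
    (affineCount (𝓞 F ⧸ v.asIdeal) (f.map (Ideal.Quotient.mk v.asIdeal))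
      (Ideal.Quotient.mk v.asIdeal d) m + 1)

/-- Trace of the `m`-th power of the Frobenius at `v` on `Hⁱ` of the product of the curves
`d_j y² = f_j(x)`, by the Künneth formula: `Hⁱ` is the sum over all `e : Fin r → {0, 1, 2}` of sum `i`
of the tensor products of the `H^{e_j}` of the curves, and the traces on the `H⁰`, `H¹`, `H²` of a
curve are `1`, `traceH1`, `q^m`. -/
noncomputable def traceH {F : Type} [Field F] [NumberField F] (i : ℕ) {r : ℕ}
    (v : HeightOneSpectrum (𝓞 F)) (f : Fin r → (𝓞 F)[X]) (d : Fin r → 𝓞 F) (m : ℕ) : ℤ :=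
  ∑ e : Fin r → Fin 3, if ∑ j, (e j : ℕ) = i then
    ∏ j, (if e j = 0 then 1 else if e j = 1 then traceH1 v (f j) (d j) m
      else (Ideal.absNorm v.asIdeal : ℤ) ^ m) else 0

open Classical in
/-- The Euler product `L(Hⁱ(X_d / F), s)`.  At the primes `v` outside the finite set `S` the factor is
`det(1 - Frob q^{-s} | Hⁱ)⁻¹ = exp(∑_{m ≥ 1} Tr(Frob^m | Hⁱ) q^{-ms} / m)`; at the primes of `S`,
which contains the primes of bad reduction, it is `B_v(q^{-s})⁻¹` for a polynomial `B_v`. -/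
noncomputable def LFun {F : Type} [Field F] [NumberField F] (i : ℕ) {r : ℕ}
    (f : Fin r → (𝓞 F)[X]) (d : Fin r → 𝓞 F) (S : Finset (HeightOneSpectrum (𝓞 F)))
    (B : HeightOneSpectrum (𝓞 F) → ℂ[X]) (s : ℂ) : ℂ :=
  ∏' v : HeightOneSpectrum (𝓞 F),
    if v ∈ S then ((B v).eval (((Ideal.absNorm v.asIdeal : ℕ) : ℂ) ^ (-s)))⁻¹
    else Complex.exp (∑' m : ℕ, (traceH i v f d (m + 1) : ℂ) *
      ((Ideal.absNorm v.asIdeal : ℕ) : ℂ) ^ (-((m + 1 : ℂ) * s)) / (m + 1 : ℂ))

/-- The nonempty sets `A` of factors such that `⊗_{j ∈ A} H¹(C_j)` occurs (up to a Tate twist) in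
`Hⁱ` of the product. -/
def sets (r i : ℕ) : Finset (Finset (Fin r)) :=
  Finset.univ.filter fun A => A.Nonempty ∧ A.card ≤ i ∧ i + A.card ≤ 2 * r ∧ Even (i + A.card)

/-- The rank `c = C(r, i/2)` of the trivial part of `Hⁱ(i/2)`, zero for odd `i`. -/
def triv (r i : ℕ) : ℕ := if Even i then r.choose (i / 2) else 0

section
variable {K : Type} [Field K] [NumberField K] {r : ℕ}

/-- The polynomials `f_j`, read over the extension `F` of `K`. -/
noncomputable def polyOver (F : Type) [Field F] [NumberField F] [Algebra K F]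
    (f : Fin r → (𝓞 K)[X]) (j : Fin r) : (𝓞 F)[X] := (f j).map (algebraMap (𝓞 K) (𝓞 F))

/-- A variety `X_d = ∏ {d_j y² = f_j(x)}` over the number field `F`, `K ⊆ F`, together with a finite
set `S` of primes of `F` that contains the bad ones and Euler factors `B_v(q^{-s})⁻¹` of
`L(Hⁱ(X_d), s)`, `v ∈ S`, without pole at `s₀ = i/2 + 1`. -/
structure Twist (i : ℕ) (f : Fin r → (𝓞 K)[X]) (F : IntermediateField K (AlgebraicClosure K))
    [NumberField F] where
  d : Fin r → 𝓞 F
  d_ne_zero : ∀ j, d j ≠ 0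
  S : Finset (HeightOneSpectrum (𝓞 F))
  good : ∀ v, v ∉ S → ∀ j, 2 * d j * (polyOver F f j).leadingCoeff ∉ v.asIdeal ∧
    ((polyOver F f j).map (Ideal.Quotient.mk v.asIdeal)).Separable
  B : HeightOneSpectrum (𝓞 F) → ℂ[X]
  B_ne_zero : ∀ v ∈ S,
    (B v).eval (((Ideal.absNorm v.asIdeal : ℕ) : ℂ) ^ (-((i : ℂ) / 2 + 1))) ≠ 0

/-- `L(Hⁱ(X_d / F), s)` extends meromorphically to a neighbourhood of `s₀ = i/2 + 1`, with order `m`
(an integer, or `⊤` if the extension is zero) at `s₀`. -/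
def Twist.HasOrder {i : ℕ} {f : Fin r → (𝓞 K)[X]}
    {F : IntermediateField K (AlgebraicClosure K)} [NumberField F] (X : Twist i f F)
    (m : WithTop ℤ) : Prop :=
  ∃ Λ : ℂ → ℂ, MeromorphicAt Λ ((i : ℂ) / 2 + 1) ∧
    (∀ᶠ s in 𝓝 ((i : ℂ) / 2 + 1), (i : ℝ) / 2 + 1 < s.re →
      Λ s = LFun i (polyOver F f) X.d X.S X.B s) ∧
    meromorphicOrderAt Λ ((i : ℂ) / 2 + 1) = m

/-- `∏_{j ∈ A} d_j` as an element of the algebraic closure of `K`. -/
noncomputable def dA {F : IntermediateField K (AlgebraicClosure K)} (d : Fin r → 𝓞 F)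
    (A : Finset (Fin r)) : AlgebraicClosure K := (((∏ j ∈ A, d j : 𝓞 F) : F) : AlgebraicClosure K)

/-- The twists `d` over `F` and `e` over `F₀` (`F₀ = F ∩ M` below), as far as `Hⁱ` is concerned: with
`d_A = ∏_{j ∈ A} d_j`, for all `A ∈ sets r i`, either `d_A e_A` is a square in `F` and `√e_A ∈ M`, or
`√d_A ∉ F M` and `√e_A ∉ M`. -/
def Related (i : ℕ) (M : IntermediateField K (AlgebraicClosure K))
    {F F₀ : IntermediateField K (AlgebraicClosure K)} (d : Fin r → 𝓞 F) (e : Fin r → 𝓞 F₀) :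
    Prop :=
  ∀ A ∈ sets r i, ((∃ u ∈ F, u ^ 2 = dA d A * dA e A) ∧ ∃ t ∈ M, t ^ 2 = dA e A) ∨
    ((∀ y ∈ F ⊔ M, y ^ 2 ≠ dA d A) ∧ ∀ y ∈ M, y ^ 2 ≠ dA e A)

/-- The intertwining number of the representations of `Gal(K̄/K)` induced from the quadratic
characters of `F(√D)/F` and `F'(√D')/F'`: the number of the simple factors of `F ⊗_K F'` in which
`D ⊗ D'` is a square. -/
noncomputable def intertwining (K F F' : Type) [Field K] [Field F] [Algebra K F] [Field F']
    [Algebra K F'] (D : F) (D' : F') : ℕ :=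
  Nat.card {m : MaximalSpectrum (F ⊗[K] F') // IsSquare (Ideal.Quotient.mk m.asIdeal (D ⊗ₜ D'))}

/-- The Gram number `∑_A w_A I_A` of two twists, `A ∈ sets r i`, where `I_A` is the intertwining number
for `d_A` and `d'_A` and `w_A = C(r - |A|, (i - |A|)/2) ∏_{j ∈ A} 2 g_j` is the dimension of the part
of `Hⁱ` which belongs to `A`. -/
noncomputable def gram (i : ℕ) (f : Fin r → (𝓞 K)[X])
    {F F' : IntermediateField K (AlgebraicClosure K)} (d : Fin r → 𝓞 F) (d' : Fin r → 𝓞 F') : ℝ :=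
  ∑ A ∈ sets r i, ((r - A.card).choose ((i - A.card) / 2) : ℝ) *
    (∏ j ∈ A, (((f j).natDegree : ℝ) - 1)) *
    (intertwining K F F' ((∏ j ∈ A, d j : 𝓞 F) : F) ((∏ j ∈ A, d' j : 𝓞 F') : F') : ℝ)

/-- `M` governs the zeros at `s₀ = i/2 + 1` of the meromorphic extensions of `L(Hⁱ(X_d / F), s)` for
all `(F, d)` in the class `P`.

1. If no `√d_A`, `A ∈ sets r i`, lies in `F M`, then `L(Hⁱ(X_d / F), s)` has no meromorphic
extension with a zero at `s₀`; the order at `s₀` of every extension is `-c`.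

2. If `e` over `F₀ = F ∩ M` is related to `d`, the orders at `s₀` of extensions of
`L(Hⁱ(X_d / F), s)` and of `L(Hⁱ(X_e / F₀), s)` are equal, so if both extend, one has a zero if and
only if the other has.

3. There is a list of at most `2^((#(sets r i) + 1)([M : K] + 1))` twists `e` over subfields of `M`
such that every twist `d` over a number field `F ⊇ K` is related to a member of the list over
`F ∩ M`. -/
def Governs (i : ℕ) (f : Fin r → (𝓞 K)[X])
    (M : IntermediateField K (AlgebraicClosure K))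
    (P : ∀ (F : IntermediateField K (AlgebraicClosure K)) [NumberField F],
      (Fin r → 𝓞 F) → Prop) : Prop :=
  (∀ (F : IntermediateField K (AlgebraicClosure K)) [NumberField F] (X : Twist i f F),
    P F X.d → (∀ A ∈ sets r i, ∀ y ∈ F ⊔ M, y ^ 2 ≠ dA X.d A) →
      ∀ m, X.HasOrder m → ¬ 0 < m ∧ m = ((-(triv r i : ℤ) : ℤ) : WithTop ℤ)) ∧
  (∀ (F F₀ : IntermediateField K (AlgebraicClosure K)) [NumberField F] [NumberField F₀],
    F₀ = F ⊓ M → ∀ (X : Twist i f F) (Y : Twist i f F₀), P F X.d → P F₀ Y.d →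
      Related i M X.d Y.d → ∀ m m', X.HasOrder m → Y.HasOrder m' → m = m') ∧
  ∃ (l : ℕ) (G : Fin l → IntermediateField K (AlgebraicClosure K)) (e : ∀ a, Fin r → 𝓞 (G a)),
    l ≤ 2 ^ (((sets r i).card + 1) * (Module.finrank K M + 1)) ∧
    (∀ a, G a ≤ M ∧ NumberField (G a) ∧ ∀ j, e a j ≠ 0) ∧
    ∀ (F : IntermediateField K (AlgebraicClosure K)) [NumberField F] (d : Fin r → 𝓞 F),
      (∀ j, d j ≠ 0) → ∃ a, G a = F ⊓ M ∧ Related i M d (e a)

end

section
variable {K : Type} [Field K] [NumberField K] {i r : ℕ} {f : Fin r → (𝓞 K)[X]}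

open Pool.Agent.W353.TP Pool.Agent.W353.AB

theorem gd {F : IntermediateField K (AlgebraicClosure K)} [NumberField F] (X : Twist i f F) :
    ∀ v, v ∉ X.S → Pool.Agent.H126U.Gd (bc F f) X.d v := by
  intro v hv j
  have h := (X.good v hv j).1
  refine ⟨fun h2 => h ?_, fun h2 => h ?_, fun h2 => h ?_⟩
  · rw [mul_assoc]
    exact v.asIdeal.mul_mem_right _ h2
  · rw [mul_right_comm]
    exact v.asIdeal.mul_mem_left _ h2
  · exact v.asIdeal.mul_mem_left _ h2

theorem s0_eq (i : ℕ) : ((i : ℂ) / 2 + 1) + ((0 : ℝ) : ℂ) * Complex.I = (i : ℂ) / 2 + 1 := by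
  simp

theorem bne {F : IntermediateField K (AlgebraicClosure K)} [NumberField F] (X : Twist i f F) :
    ∀ v ∈ X.S, (X.B v).eval (((Ideal.absNorm v.asIdeal : ℕ) : ℂ) ^
      (-((i : ℂ) / 2 + 1 + ((0 : ℝ) : ℂ) * Complex.I))) ≠ 0 := by
  intro v hv
  rw [s0_eq]
  exact X.B_ne_zero v hv

/-- a twist with a meromorphic extension of order `m` -/
structure Ix (i : ℕ) (f : Fin r → (𝓞 K)[X]) where
  F : IntermediateField K (AlgebraicClosure K)
  nf : NumberField F
  X : Twist i f F
  m : ℤ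
  h : X.HasOrder m

instance Ix.instNF (x : Ix i f) : NumberField x.F := x.nf

/-- the size of the twist -/
noncomputable def Ix.sz (x : Ix i f) (ε : ℝ) : ℝ :=
  XHi i f x.F x.X.d x.X.S x.X.B 0 ε

theorem Ix.lim (hodd : ∀ j, Odd (f j).natDegree) (h3 : ∀ j, 3 ≤ (f j).natDegree) (x : Ix i f) :
    Tendsto x.sz (𝓝[>] 0) (𝓝 (-((x.m : ℝ) + (triv r i : ℝ)))) := by
  classical
  obtain ⟨Λ, h1, h2, h4⟩ := x.h
  have h5 := order_Hi i hodd h3 (gd x.X) x.X.B 0 (bne x.X) Λ (by rw [s0_eq]; exact h1)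
    (by rw [s0_eq]; exact h2) (m := x.m) (by rw [s0_eq]; exact h4)
  rw [if_pos rfl] at h5
  have e : -((x.m : ℝ) + (triv r i : ℝ)) = -(x.m : ℝ) - (Pool.Agent.H126U.mult0 r i : ℝ) := by
    have : (triv r i : ℝ) = (Pool.Agent.H126U.mult0 r i : ℝ) := rfl
    rw [this]
    ring
  rw [e]
  exact h5

theorem order_int (hodd : ∀ j, Odd (f j).natDegree) (h3 : ∀ j, 3 ≤ (f j).natDegree)
    {F : IntermediateField K (AlgebraicClosure K)} [NumberField F] (X : Twist i f F)
    {m : WithTop ℤ} (h : X.HasOrder m) : ∃ n : ℤ, m = n := by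
  obtain ⟨Λ, h1, h2, h4⟩ := h
  obtain ⟨hne, _⟩ := size_Hi i hodd h3 (gd X) X.B 0 (bne X)
  obtain ⟨m', h5, _⟩ := Pool.Agent.H126T.order_limit (by rw [s0_eq]; exact h1 :
      MeromorphicAt Λ ((i : ℂ) / 2 + 1 + ((0 : ℝ) : ℂ) * Complex.I))
    (fun ε : ℝ => Pool.Agent.H126U.LL i (bc F f) X.d X.S X.B
      ((i : ℂ) / 2 + 1 + ((0 : ℝ) : ℂ) * Complex.I + ε)) hne (by
      filter_upwards [(Pool.Agent.H341R2.path_tendsto'
        ((i : ℂ) / 2 + 1 + ((0 : ℝ) : ℂ) * Complex.I)).eventually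
          (by rw [s0_eq]; exact h2), self_mem_nhdsWithin] with ε h1 h2
      have hε : (0 : ℝ) < ε := h2
      refine h1 ?_
      have h5 : ((i : ℂ) / 2) = (((i : ℝ) / 2 : ℝ) : ℂ) := by push_cast; rfl
      rw [h5]
      simp
      exact hε)
  rw [s0_eq, h4] at h5
  exact ⟨m', h5⟩

/-- passage to the helper library -/
noncomputable def Ix.dat (x : Ix i f) : Pool.Agent.W385.TT.Dat K (Fin r) :=
  ⟨x.F, x.nf, x.X.d, x.X.d_ne_zero⟩

theorem gram_eq {F F' : IntermediateField K (AlgebraicClosure K)} [NumberField F] [NumberField F']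
    (hodd : ∀ j, Odd (f j).natDegree) (h3 : ∀ j, 3 ≤ (f j).natDegree)
    (d : Fin r → 𝓞 F) (d' : Fin r → 𝓞 F') :
    (syH i f hodd h3).G d 0 d' 0 = gram i f d d' := by
  classical
  unfold Sy.G gram
  refine Finset.sum_congr rfl fun A _ => ?_
  rw [if_pos rfl]
  rfl

theorem ineq (hodd : ∀ j, Odd (f j).natDegree) (h3 : ∀ j, 3 ≤ (f j).natDegree) {N : ℕ}
    (hN : (N : ℝ) = ∑ A ∈ (syH i f hodd h3).P, (syH i f hodd h3).b A) (κ : Type) (S : Finset κ)
    (g : κ → Ix i f) (a : κ → ℝ) :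
    (∑ k ∈ S, a k * ((g k).m + (triv r i : ℝ))) ^ 2 ≤
      N * ∑ k ∈ S, ∑ l ∈ S, a k * a l * gram i f (g k).X.d (g l).X.d := by
  classical
  refine le_of_forall_pos_le_add fun η hη => ?_
  have h1 := main_ineq (syH i f hodd h3) S (fun k => (g k).F) (fun k => (g k).X.d) (fun _ => 0)
    (fun k _ => (g k).X.d_ne_zero) (fun k => (g k).sz)
    (fun k _ => (size_Hi i hodd h3 (gd (g k).X) (g k).X.B 0 (bne (g k).X)).2) a hη
  have h2 : Tendsto (fun ε => (∑ k ∈ S, a k * (g k).sz ε) ^ 2) (𝓝[>] 0)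
      (𝓝 ((∑ k ∈ S, a k * (-(((g k).m : ℝ) + (triv r i : ℝ)))) ^ 2)) :=
    (tendsto_finsetSum S fun k _ => ((g k).lim hodd h3).const_mul (a k)).pow 2
  have h4 := le_of_tendsto h2 h1
  have e1 : (∑ k ∈ S, a k * (-(((g k).m : ℝ) + (triv r i : ℝ)))) ^ 2 =
      (∑ k ∈ S, a k * ((g k).m + (triv r i : ℝ))) ^ 2 := by
    have : ∑ k ∈ S, a k * (-(((g k).m : ℝ) + (triv r i : ℝ))) =
        -∑ k ∈ S, a k * ((g k).m + (triv r i : ℝ)) := by
      rw [← Finset.sum_neg_distrib]
      exact Finset.sum_congr rfl fun k _ => by ring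
    rw [this, neg_sq]
  rw [e1, ← hN] at h4
  refine h4.trans (le_of_eq ?_)
  congr 2
  refine Finset.sum_congr rfl fun k _ => Finset.sum_congr rfl fun l _ => ?_
  rw [gram_eq]

end

open Pool.Agent.W353.TP Pool.Agent.W353.AB in
/-- **Zeros at the edge over all number fields.**  Let `N = ∑_A C(r - |A|, (i - |A|)/2) ∏_{j ∈ A} 2 g_j`,
the sum over `A ∈ sets r i`, the rest of the dimension of `Hⁱ`, let `c = C(r, i/2)` for even `i` and
`c = 0` for odd `i`, and `s₀ = i/2 + 1`.

(A) Let `X_k`, `k ∈ S`, be finitely many twists over number fields `F_k ⊇ K` of any degrees whose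
functions `L(Hⁱ(X_k / F_k), s)` extend meromorphically to a neighbourhood of `s₀`, with orders `m_k`
at `s₀`.  Then `(∑ a_k (m_k + c))² ≤ N ∑_{k, l} a_k a_l gram(X_k, X_l)` for all real numbers `a_k`.  In
particular if all these functions have a zero at `s₀` and `a_k ≥ 0` then
`((c + 1) ∑ a_k)² ≤ N ∑_{k, l} a_k a_l gram(X_k, X_l)`.

(B) Let `n ≥ 0` and let `P` be a class of pairs `(F, d)`, `F` a number field containing `K`, `d` a
twist over `F`, such that for every pair `[F : K] ≤ n` or, for all `A ∈ sets r i`, the representation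
of `Gal(K̄/K)` induced from the quadratic character of `F(√d_A)/F` has intertwining number at most `n`
with itself; for instance all `(F, d)` with `[F : K] ≤ n`.  Then there is a finite Galois extension
`M` of `K` that governs the zeros at `s₀` for all pairs in `P`.  If `[F : K] ≤ m` for all pairs in
`P`, then the degree of `M` is at most `((4^r m)!)^(2 n N²)`. -/
theorem result (K : Type) [Field K] [NumberField K] (r i : ℕ) (f : Fin r → (𝓞 K)[X])
    (hodd : ∀ j, Odd (f j).natDegree) (h3 : ∀ j, 3 ≤ (f j).natDegree)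
    (N : ℕ) (hN : N = ∑ A ∈ sets r i,
      (r - A.card).choose ((i - A.card) / 2) * ∏ j ∈ A, ((f j).natDegree - 1)) :
    (∀ (κ : Type) (S : Finset κ) (F : κ → IntermediateField K (AlgebraicClosure K))
      [∀ k, NumberField (F k)] (X : ∀ k, Twist i f (F k)) (a : κ → ℝ),
      (∀ m : κ → ℤ, (∀ k, (X k).HasOrder (m k)) →
        (∑ k ∈ S, a k * ((m k : ℝ) + triv r i)) ^ 2 ≤
          N * ∑ k ∈ S, ∑ l ∈ S, a k * a l * gram i f (X k).d (X l).d) ∧
      ((∀ k, 0 ≤ a k) → (∀ k, ∃ m, 0 < m ∧ (X k).HasOrder m) →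
        ((triv r i + 1 : ℝ) * ∑ k ∈ S, a k) ^ 2 ≤
          N * ∑ k ∈ S, ∑ l ∈ S, a k * a l * gram i f (X k).d (X l).d)) ∧
    ∀ n : ℕ, ∀ P : (∀ (F : IntermediateField K (AlgebraicClosure K)) [NumberField F],
        (Fin r → 𝓞 F) → Prop),
      (∀ (F : IntermediateField K (AlgebraicClosure K)) [NumberField F] (d : Fin r → 𝓞 F),
        P F d → Module.finrank K F ≤ n ∨ ∀ A ∈ sets r i,
          intertwining K F F ((∏ j ∈ A, d j : 𝓞 F) : F) ((∏ j ∈ A, d j : 𝓞 F) : F) ≤ n) →
      ∀ m : ℕ, ∃ M : IntermediateField K (AlgebraicClosure K),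
        FiniteDimensional K M ∧ IsGalois K M ∧
        ((∀ (F : IntermediateField K (AlgebraicClosure K)) [NumberField F] (d : Fin r → 𝓞 F),
          P F d → Module.finrank K F ≤ m) →
            Module.finrank K M ≤ (4 ^ r * m).factorial ^ (2 * n * N ^ 2)) ∧
        Governs i f M P := by
  classical
  have hNb : (N : ℝ) = ∑ A ∈ (syH i f hodd h3).P, (syH i f hodd h3).b A := by
    rw [hN]
    push_cast
    change _ = ∑ A ∈ Pool.Agent.H126U.idx r i, Pool.Agent.H126U.bb i f A
    refine Finset.sum_congr rfl fun A _ => ?_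
    unfold Pool.Agent.H126U.bb Pool.Agent.H126U.mult
    congr 1
    refine Finset.prod_congr rfl fun j _ => ?_
    rw [Nat.cast_sub (by have := h3 j; omega)]
    push_cast
    ring
  refine ⟨fun κ S F hF X a => ?_, fun n P hP m => ?_⟩
  · have hmain : ∀ m : κ → ℤ, (∀ k, (X k).HasOrder (m k)) →
        (∑ k ∈ S, a k * ((m k : ℝ) + triv r i)) ^ 2 ≤
          N * ∑ k ∈ S, ∑ l ∈ S, a k * a l * gram i f (X k).d (X l).d := fun m hm =>
      ineq hodd h3 hNb κ S (fun k => ⟨F k, hF k, X k, m k, hm k⟩) a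
    refine ⟨hmain, fun ha hz => ?_⟩
    have h1 : ∀ k, ∃ m : ℤ, 1 ≤ m ∧ (X k).HasOrder m := by
      intro k
      obtain ⟨m, h1, h2⟩ := hz k
      obtain ⟨n, rfl⟩ := order_int hodd h3 (X k) h2
      exact ⟨n, by exact_mod_cast h1, h2⟩
    choose m hm1 hm2 using h1
    refine le_trans ?_ (hmain m hm2)
    have h2 : (triv r i + 1 : ℝ) * ∑ k ∈ S, a k ≤ ∑ k ∈ S, a k * ((m k : ℝ) + triv r i) := by
      rw [Finset.mul_sum]
      refine Finset.sum_le_sum fun k _ => ?_
      have h3 : (1 : ℝ) ≤ m k := by exact_mod_cast hm1 k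
      nlinarith [ha k]
    have h4 : 0 ≤ (triv r i + 1 : ℝ) * ∑ k ∈ S, a k :=
      mul_nonneg (by positivity) (Finset.sum_nonneg fun k _ => ha k)
    exact pow_le_pow_left₀ h4 h2 2
  · have hBes : Pool.Agent.W385.TT.Bes (fun A : Finset (Fin r) => A)
        (Pool.Agent.H126U.idx r i) (Pool.Agent.H126U.bb i f) (Ix.dat (i := i) (f := f))
        (fun x => (x.m : ℝ) + (triv r i : ℝ)) (N : ℝ) := by
      intro κ S g a
      exact ineq hodd h3 hNb κ S g a
    have hb : ∀ j ∈ Pool.Agent.H126U.idx r i, 0 ≤ Pool.Agent.H126U.bb i f j :=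
      fun j _ => Pool.Agent.H126U.bb_nonneg h3 j
    obtain ⟨M, hM1, hM2, hdeg, hA, hC⟩ := Pool.Agent.W385.TT.stab' hb hNb hBes n 1 m
      (fun x => P x.F x.X.d)
    have hsep : Algebra.IsSeparable K M := inferInstance
    have hBd : ∀ x : Ix i f, P x.F x.X.d → Pool.Agent.W385.TT.Bd (fun A : Finset (Fin r) => A)
        (Pool.Agent.H126U.idx r i) n x.dat := by
      intro x h
      rcases hP x.F x.X.d h with h1 | h1
      · exact Pool.Agent.W385.TT.Bd_of_finrank h1
      · exact fun A hA => h1 A hA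
    have hpr : ∀ (x : Ix i f) (A : Finset (Fin r)),
        x.dat.pr (fun A : Finset (Fin r) => A) A = dA x.X.d A := fun x A => rfl
    refine ⟨M, hM1, IsGalois.mk, fun h => ?_, ?_, ?_, ?_⟩
    · have h1 := hdeg fun x hx => h x.F x.X.d hx
      rwa [Fintype.card_fin, one_mul] at h1
    · intro F hF X hX hcond m hm
      obtain ⟨m', rfl⟩ := order_int hodd h3 X hm
      let x : Ix i f := ⟨F, hF, X, m', hm⟩
      have h1 := hA x (hBd x hX) hX (fun A hA y hy => by
        rw [hpr x]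
        exact hcond A hA y hy)
      have h2 : |((m' + (triv r i : ℤ) : ℤ) : ℝ)| < 1 := by
        push_cast
        simpa using h1
      have h4 : m' + (triv r i : ℤ) = 0 := by
        by_contra hne
        have h5 := Int.one_le_abs hne
        have h6 : (1 : ℝ) ≤ |((m' + (triv r i : ℤ) : ℤ) : ℝ)| := by exact_mod_cast h5
        linarith
      have h5 : m' = -(triv r i : ℤ) := by omega
      refine ⟨fun hpos => ?_, by rw [h5]⟩
      have h6 : (0 : ℤ) < m' := by exact_mod_cast hpos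
      omega
    · intro F F₀ hF hF₀ hFF X Y hX hY hR m m' hm hm'
      obtain ⟨n₁, rfl⟩ := order_int hodd h3 X hm
      obtain ⟨n₂, rfl⟩ := order_int hodd h3 Y hm'
      let x : Ix i f := ⟨F, hF, X, n₁, hm⟩
      let y : Ix i f := ⟨F₀, hF₀, Y, n₂, hm'⟩
      have h1 := hC x y hFF (hBd x hX) (hBd y hY) hX (fun A hA => by
        rw [hpr x, hpr y]
        exact hR A hA)
      have h2 : |((n₁ - n₂ : ℤ) : ℝ)| < 1 := by
        push_cast
        simpa [x, y] using h1
      have h4 : n₁ - n₂ = 0 := by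
        by_contra hne
        have h5 := Int.one_le_abs hne
        have h6 : (1 : ℝ) ≤ |((n₁ - n₂ : ℤ) : ℝ)| := by exact_mod_cast h5
        linarith
      have h5 : n₁ = n₂ := by omega
      rw [h5]
    · obtain ⟨l, s, hl, hs⟩ := finite_list (syH i f hodd h3) M
      refine ⟨l, fun a => (s a).G, fun a => (s a).e, hl,
        fun a => ⟨(s a).le, (s a).nf, (s a).he⟩, fun F _ d hd => ?_⟩
      obtain ⟨a, ha, hR⟩ := hs F d hd
      exact ⟨a, ha, hR⟩

end Pool.Agent.Results.MP_2b9663_nt.AllNumberFields
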