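import Pool.Agent.W353.EF.Main

/-!
# One finite extension governs the vanishing at the edge

`X` is a smooth projective variety over a number field `K`, for example over `K = ℚ`, and `i` an
integer.  For every number field `F ⊇ K` the variety `X_F`, seen as a variety over `ℚ`, is smooth and
projective.  The theorem is about the order at `s₀ = i/2 + 1` of a meromorphic continuation of
`L(H^i(X_F), s)`, for fixed `X` and varying `F`.  Nothing is assumed about the automorphy of the Galois
representation `H^i(X)`.
The definitions are in `Pool.Agent.W353.EF.Defs`.
-/

set_option autoImplicit false

namespace Pool.Agent.Results.MP_2b9663_nt.GoverningField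

open NumberField Pool.Agent.W353.EF

/-- **One finite extension governs the vanishing at the edge.**  Let `X` be a projective variety of
dimension `d` over a number field `K` (for instance `K = ℚ`), `0 ≤ i ≤ 2d`, `N` the `i`-th Betti
number, and `s₀ = i/2 + 1`.  For a number field `F ⊇ K` let `m_F` be the order at `s₀` of a meromorphic
continuation of `L(H^i(X_F), s)` to a neighbourhood of `s₀`.

For every `c` there is a finite Galois extension `M` of `K` such that `m_F = m_{F ∩ M}` for all number
fields `F ⊇ K` for which `F ⊗_K F` is a product of at most `c` fields (for `c = 2` these are all fields,
of all degrees, whose Galois closure has a doubly transitive group).  For the fields `F` of degree at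
most `c` there is such an `M` of degree at most `(c!)^(2 c N²)`.  So for all these `F` together the
vanishing at `s₀` is decided over the finitely many subfields of `M`. -/
theorem result (K : Type) [Field K] [NumberField K] (n d i : ℕ)
    (X : Set (MvPolynomial (Fin n) (𝓞 K))) (hi : i ≤ 2 * d) (N c : ℕ) :
    OneFieldGoverns X d i N c := by
  obtain ⟨n₀, h⟩ := all N
  exact (h K n d i X hi).1 c

end Pool.Agent.Results.MP_2b9663_nt.GoverningField
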