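import Pool.Agent.W353.EF.Main

/-!
# The order at the edge and the permutation characters of fields

`X` is a smooth projective variety over a number field `K`, for example over `K = ℚ`, and `i` an
integer.  For every number field `F ⊇ K` the variety `X_F`, seen as a variety over `ℚ`, is smooth and
projective.  The theorem is about the order at `s₀ = i/2 + 1` of a meromorphic continuation of
`L(H^i(X_F), s)`, for fixed `X` and varying `F`.  Nothing is assumed about the automorphy of the Galois
representation `H^i(X)`.
The definitions are in `Pool.Agent.W353.EF.Defs`.
-/

set_option autoImplicit false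

namespace Pool.Agent.Results.MP_2b9663_nt.NearRelations

open NumberField Pool.Agent.W353.EF

/-- **The orders at the edge and the permutation characters of number fields.**  Let `X` be a
projective variety of dimension `d` over a number field `K` (for instance `K = ℚ`), `0 ≤ i ≤ 2d`, `N`
the `i`-th Betti number, and `s₀ = i/2 + 1`.  For a number field `F ⊇ K` let `m_F` be the order at `s₀`
of a meromorphic continuation of `L(H^i(X_F), s)` to a neighbourhood of `s₀`.

Then `|∑ c_k m_{F_k}| ≤ N · meanAbs` for all `F_1, …, F_l ⊇ K` and real `c_k`, where `meanAbs` is the
mean value of `|∑ c_k fix_k|`, `fix_k(σ)` the number of the embeddings of `F_k` fixed by `σ`.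
Consequently `|m_F - m_K| ≤ 2 N δ`, where `δ` is the proportion of the elements without fixed point in
the Galois group of the closure of `F/K`.  Consequently, if `p` is a prime with `[K(ζ_p) : K] > 2 N`,
then `m_F = m_K` for all radical extensions `F = K(a^{1/p})` of degree `p`; for `K = ℚ` this is the
case for all primes `p > 2 N + 1`. -/
theorem result (K : Type) [Field K] [NumberField K] (n d i : ℕ)
    (X : Set (MvPolynomial (Fin n) (𝓞 K))) (hi : i ≤ 2 * d) (N : ℕ) :
    NearRelations X d i N ∧ RadicalExtensions X d i N := by
  obtain ⟨n₀, h⟩ := all N
  exact ⟨(h K n d i X hi).2.1, (h K n d i X hi).2.2.1⟩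

end Pool.Agent.Results.MP_2b9663_nt.NearRelations
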