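import Pool.Agent.W353.EF.Main

/-!
# The vanishing at the edge over the subfields of a field with symmetric Galois group

`X` is a smooth projective variety over a number field `K`, for example over `K = ℚ`, and `i` an
integer.  For every number field `F ⊇ K` the variety `X_F`, seen as a variety over `ℚ`, is smooth and
projective.  The theorem is about the order at `s₀ = i/2 + 1` of a meromorphic continuation of
`L(H^i(X_F), s)`, for fixed `X` and varying `F`.  Nothing is assumed about the automorphy of the Galois
representation `H^i(X)`.
The definitions are in `Pool.Agent.W353.EF.Defs`.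
-/

set_option autoImplicit false

namespace Pool.Agent.Results.MP_2b9663_nt.SymmetricClosure

open NumberField Pool.Agent.W353.EF

/-- **The closure of a field with symmetric Galois group.**  For every `N` there is a number `n₀` with
the following property.  Let `X` be a projective variety of dimension `d` over a number field `K` (for
instance `K = ℚ`), `0 ≤ i ≤ 2d`, `N` the `i`-th Betti number, and `s₀ = i/2 + 1`.  Let `F/K` be an
extension of degree at least `n₀` with symmetric Galois group, `L` its closure and `Q = K(√disc F)`.
Suppose that the `L`-functions `L(H^i(X_M), s)` over all Young subfields `M` of `L` have meromorphic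
continuations to a neighbourhood of `s₀`, and let `m r` be their orders at `s₀`, so `m ⊥` is the order
over `L` and `m ⊤` the order over `K`.

Let `M` be any field between `K` and `L`, and `k = m ⊥` if `Q ⊆ M`, `k = m ⊤` otherwise.  Then
`log |L(H^i(X_M), s₀ + ε)| / log(1/ε) → -k` as `ε → 0+`, and `k` is the order of every meromorphic
continuation of `L(H^i(X_M), s)`: if the `L`-function does not vanish at `s₀` over `K` and over `L`,
then over no field between them.  Moreover `|m ⊤| + |m ⊥ - m ⊤| ≤ N`. -/
theorem result (N : ℕ) : ∃ n₀ : ℕ, ∀ (K : Type) [Field K] [NumberField K] (n d i : ℕ)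
    (X : Set (MvPolynomial (Fin n) (𝓞 K))), i ≤ 2 * d → SymmetricFields X d i N n₀ := by
  obtain ⟨n₀, h⟩ := all N
  exact ⟨n₀, fun K _ _ n d i X hi => (h K n d i X hi).2.2.2⟩

end Pool.Agent.Results.MP_2b9663_nt.SymmetricClosure
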